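import Pool.Agent.Q283.FG.Stm2

/-! # Project FG of helper283: job TRS, the classes of the torsion points are in the subspace -/

set_option autoImplicit false

namespace Pool.Agent.Q259.FG

open NumberField IsDedekindDomain Finset
open Pool.Agent.Q283.LQ (Sm)
open Pool.Agent.Q7.LK
open Pool.Agent.Q283.FT (U2 om crv Rt twi df Dcl)
open Pool.Agent.Q283.FG

section

variable {F : Type} [Field F] [NumberField F]

theorem mon_ne0 {f : ℕ} {u : Fin f → F} (hu : ∀ l, u l ≠ 0) (c : Fin f → ZMod 2) : mon u c ≠ 0 := by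
  unfold mon
  rw [prod_ne_zero_iff]
  intro l _
  exact pow_ne_zero _ (hu l)

theorem mon_z {f : ℕ} (u : Fin f → F) : mon u (0 : Fin f → ZMod 2) = 1 := by
  unfold mon
  apply prod_eq_one
  intro l _
  rw [Pi.zero_apply, ZMod.val_zero, pow_zero]

theorem mon_single {f : ℕ} (u : Fin f → F) (t₀ : Fin f) : mon u (Pi.single t₀ (1 : ZMod 2)) = u t₀ := by
  unfold mon
  rw [prod_eq_single t₀]
  · rw [Pi.single_eq_same]
    exact pow_one _
  · intro l _ hl
    rw [Pi.single_eq_of_ne hl, ZMod.val_zero, pow_zero]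
  · intro h
    exact absurd (mem_univ _) h

theorem mon_add_sq {f : ℕ} {u : Fin f → F} (hu : ∀ l, u l ≠ 0) (c d : Fin f → ZMod 2) :
    ∃ s : F, s ≠ 0 ∧ mon u c * mon u d = mon u (c + d) * s ^ 2 := by
  refine ⟨∏ l, u l ^ (((c l).val + (d l).val) / 2), ?_, ?_⟩
  · rw [prod_ne_zero_iff]
    intro l _
    exact pow_ne_zero _ (hu l)
  · unfold mon
    rw [← prod_mul_distrib, ← prod_pow, ← prod_mul_distrib]
    apply prod_congr rfl
    intro l _
    rw [← pow_add, ← pow_mul, ← pow_add, Pi.add_apply, ZMod.val_add]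
    congr 1
    omega

theorem pow_pos' {a : F} (h : IsPow 2 a) (ha : a ≠ 0) (φ : F →+* ℝ) : 0 < φ a := by
  obtain ⟨x, hx⟩ := h
  have hx0 : x ≠ 0 := by
    rintro rfl
    exact ha (by rw [hx]; norm_num)
  rw [hx, map_pow]
  exact pow_pos_of_ne (by rwa [map_ne_zero])
where pow_pos_of_ne {z : ℝ} (h : z ≠ 0) : 0 < z ^ 2 := by positivity

theorem lpw_sq (hBAS : S_BAS) (v : HeightOneSpectrum (𝓞 F)) {a : F} (h : IsPow 2 a) (ha : a ≠ 0) : Lpw 2 v a := by
  obtain ⟨x, hx⟩ := h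
  have hx0 : x ≠ 0 := by
    rintro rfl
    exact ha (by rw [hx]; norm_num)
  rw [hx]
  exact (hBAS 2 F v).2.2.1 x hx0

/-- the class of a square is trivial -/
theorem nr_sq (hBAS : S_BAS) {y : ℕ} {a : F} (h : IsPow 2 a) (ha : a ≠ 0) : Nr y a :=
  ⟨⟨ha, fun v _ => lpw_sq hBAS v h ha⟩, pow_pos' h ha⟩

theorem nr_mul (hBAS : S_BAS) {y : ℕ} {a b : F} (ha : Nr y a) (hb : Nr y b) : Nr y (a * b) :=
  ⟨⟨mul_ne_zero ha.1.1 hb.1.1, fun v hv => (hBAS 2 F v).2.1 _ _ (ha.1.2 v hv) (hb.1.2 v hv)⟩,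
    fun φ => by rw [map_mul]; exact mul_pos (ha.2 φ) (hb.2 φ)⟩

theorem nnA (hBAS : S_BAS) {y f : ℕ} {u r : Fin f → F} (hu : ∀ l, u l ≠ 0) {D0 d : F} {ψ w c : Fin f → ZMod 2}
    (hD : Nr y (D0 * mon r ψ * mon u w)) (hd : IsPow 2 (d * mon u c)) (hd0 : d ≠ 0) :
    Nr y (D0 * d * mon r ψ * mon u (w + c)) := by
  obtain ⟨s, hs0, hs⟩ := mon_add_sq hu w c
  have hd1 : d * mon u c ≠ 0 := mul_ne_zero hd0 (mon_ne0 hu c)
  have e : D0 * d * mon r ψ * mon u (w + c) = (D0 * mon r ψ * mon u w) * (d * mon u c) * (s⁻¹) ^ 2 := by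
    have h1 : mon u (w + c) = mon u w * mon u c * (s⁻¹) ^ 2 := by
      rw [hs]
      field_simp
    rw [h1]
    ring
  rw [e]
  exact nr_mul hBAS (nr_mul hBAS hD (nr_sq hBAS hd hd1)) (nr_sq hBAS ⟨s⁻¹, rfl⟩ (pow_ne_zero _ (inv_ne_zero hs0)))

theorem nnB (hBAS : S_BAS) {y f : ℕ} {u r : Fin f → F} (hu : ∀ l, u l ≠ 0) {d d' : F} {c c' : Fin f → ZMod 2}
    (hd : IsPow 2 (d * mon u c)) (hd0 : d ≠ 0) (hd' : IsPow 2 (d' * mon u c')) (hd0' : d' ≠ 0) :
    Nr y (d * d' * mon r (0 : Fin f → ZMod 2) * mon u (c + c')) := by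
  obtain ⟨s, hs0, hs⟩ := mon_add_sq hu c c'
  have hd1 : d * mon u c ≠ 0 := mul_ne_zero hd0 (mon_ne0 hu c)
  have hd1' : d' * mon u c' ≠ 0 := mul_ne_zero hd0' (mon_ne0 hu c')
  have e : d * d' * mon r (0 : Fin f → ZMod 2) * mon u (c + c') = (d * mon u c) * (d' * mon u c') * (s⁻¹) ^ 2 := by
    have h1 : mon u (c + c') = mon u c * mon u c' * (s⁻¹) ^ 2 := by
      rw [hs]
      field_simp
    rw [h1, mon_z]
    ring
  rw [e]
  exact nr_mul hBAS (nr_mul hBAS (nr_sq hBAS hd hd1) (nr_sq hBAS hd' hd1'))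
    (nr_sq hBAS ⟨s⁻¹, rfl⟩ (pow_ne_zero _ (inv_ne_zero hs0)))

theorem neg_cl {f : ℕ} {u : Fin f → F} (hu : ∀ l, u l ≠ 0) {t₀ : Fin f} (h1 : u t₀ = -1) {d : F}
    {c : Fin f → ZMod 2} (hd : IsPow 2 (d * mon u c)) :
    IsPow 2 (-d * mon u (c + Pi.single t₀ (1 : ZMod 2))) := by
  obtain ⟨s, hs0, hs⟩ := mon_add_sq hu c (Pi.single t₀ (1 : ZMod 2))
  rw [mon_single, h1] at hs
  obtain ⟨x, hx⟩ := hd
  refine ⟨x * s⁻¹, ?_⟩
  have h2 : mon u (c + Pi.single t₀ (1 : ZMod 2)) = -(mon u c) * (s⁻¹) ^ 2 := by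
    have : mon u c * -1 = -(mon u c) := by ring
    rw [← this, hs]
    field_simp
  rw [h2]
  calc -d * (-(mon u c) * (s⁻¹) ^ 2) = (d * mon u c) * (s⁻¹) ^ 2 := by ring
    _ = x ^ 2 * (s⁻¹) ^ 2 := by rw [hx]
    _ = (x * s⁻¹) ^ 2 := by ring

theorem df_twi (D : F) (e : Fin 3 → F) (l : Fin 3) : df (twi D e) l = D * df e l := by
  unfold df twi
  split_ifs <;> ring

theorem df_ne {e : Fin 3 → F} (h : Rt e) (l : Fin 3) : df e l ≠ 0 := by
  unfold df
  split_ifs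
  · exact sub_ne_zero.2 fun h1 => absurd (h.inj h1) (by decide)
  · exact sub_ne_zero.2 fun h1 => absurd (h.inj h1) (by decide)
  · exact sub_ne_zero.2 fun h1 => absurd (h.inj h1) (by decide)

theorem sq_pos' (φ : F →+* ℝ) {a : F} (ha : a ≠ 0) : 0 < φ ((a⁻¹) ^ 2) :=
  pow_pos' ⟨a⁻¹, rfl⟩ (pow_ne_zero _ (inv_ne_zero ha)) φ

end

theorem dot_single {f : ℕ} (t : Fin f) (z : Fin f → ZMod 2) : dot (Pi.single t 1) z = z t := by
  unfold dot
  rw [sum_eq_single t]
  · rw [Pi.single_eq_same, one_mul]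
  · intro j _ hj
    rw [Pi.single_eq_of_ne hj, zero_mul]
  · intro h
    exact absurd (mem_univ t) h

theorem single_comm {f : ℕ} (t t₀ : Fin f) :
    (Pi.single t (1 : ZMod 2) : Fin f → ZMod 2) t₀ = (Pi.single t₀ (1 : ZMod 2) : Fin f → ZMod 2) t := by
  by_cases h : t = t₀
  · subst h; rfl
  · rw [Pi.single_eq_of_ne (Ne.symm h), Pi.single_eq_of_ne h]

theorem opS_single {f : ℕ} (t₀ : Fin f) (c : Fin 3 → Fin f → ZMod 2) (w : Fin f → ZMod 2) (t : Fin f) (x : U2) :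
    opS t₀ c w (Pi.single t 1) x =
      (c 2 t * (x.1 + x.2) + c 1 t * x.2 + w t * x.1 + (Pi.single t₀ (1 : ZMod 2) : Fin f → ZMod 2) t * x.1,
      c 2 t * (x.1 + x.2) + c 0 t * x.1 + w t * x.2 + (Pi.single t₀ (1 : ZMod 2) : Fin f → ZMod 2) t * x.1) := by
  have h : opS t₀ c w (Pi.single t 1) x = (dot (Pi.single t 1) (c 2) * (x.1 + x.2) + dot (Pi.single t 1) (c 1) * x.2 +
      dot (Pi.single t 1) w * x.1 + (Pi.single t (1 : ZMod 2) : Fin f → ZMod 2) t₀ * x.1,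
      dot (Pi.single t 1) (c 2) * (x.1 + x.2) + dot (Pi.single t 1) (c 0) * x.1 +
      dot (Pi.single t 1) w * x.2 + (Pi.single t (1 : ZMod 2) : Fin f → ZMod 2) t₀ * x.1) := rfl
  rw [h]
  simp only [dot_single, single_comm]

theorem trs (hBAS : S_BAS) : S_TRS := by
  intro F _ _ ζ hζ y f t₀ u r π hB ht e c he hc D0 ψ w hD0 hD A R hA hRp hRt hRm 𝓛 hM x
  have hu := hB.ue
  have hd : ∀ l, df e l ≠ 0 := df_ne he
  have sq : ∀ (v : HeightOneSpectrum (𝓞 F)) (a : F), a ≠ 0 → Lpw 2 v (a ^ 2) := fun v a ha => (hBAS 2 F v).2.2.1 a ha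
  have h2 : ∀ z : ZMod 2, z = 0 ∨ z = 1 := by decide
  -- the negatives
  have hcn : ∀ l, IsPow 2 (-(df e l) * mon u (c l + Pi.single t₀ (1 : ZMod 2))) := fun l => neg_cl hu ht (hc l)
  have hdn : ∀ l, -(df e l) ≠ 0 := fun l => neg_ne_zero.2 (hd l)
  have hR0 : ∀ φ, R φ (D0 * df e 1 * (D0 * df e 2)) (D0 * df e 2) := fun φ => by
    have := hRt φ 0
    simpa only [tc, if_true, df_twi] using this
  have hR1 : ∀ φ, R φ (-(D0 * df e 2)) (-(D0 * df e 0 * (D0 * df e 2))) := fun φ => by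
    have := hRt φ 1
    simpa [tc, df_twi] using this
  have hR2 : ∀ φ, R φ (-(D0 * df e 1)) (-(D0 * df e 0)) := fun φ => by
    have := hRt φ 2
    simpa [tc, df_twi] using this
  have T0 : tc (twi D0 e) 0 = (D0 * df e 1 * (D0 * df e 2), D0 * df e 2) := by
    simp [tc, df_twi]
  have T1 : tc (twi D0 e) 1 = (-(D0 * df e 2), -(D0 * df e 0 * (D0 * df e 2))) := by
    simp [tc, df_twi]
  have T2 : tc (twi D0 e) 2 = (-(D0 * df e 1), -(D0 * df e 0)) := by
    simp [tc, df_twi]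
  rcases x with ⟨x1, x2⟩
  rcases h2 x1 with rfl | rfl <;> rcases h2 x2 with rfl | rfl
  · have h0 : (((fun t => opS t₀ c w (Pi.single t 1) ((0, 0) : U2)), (fun t => ψ t • ((0, 0) : U2))) :
        (Fin f → U2) × (Fin f → U2)) = 0 := by
      apply Prod.ext
      · funext t
        exact map_zero _
      · funext t
        exact smul_zero _
    rw [h0]
    exact 𝓛.zero_mem
  · have h1 := (hM (df e 1 * df e 2) (D0 * df e 2) (0, c 1 + c 2) (ψ, w + c 2) (mul_ne_zero (hd 1) (hd 2))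
      (mul_ne_zero hD0 (hd 2)) (nnB hBAS hu (hc 1) (hd 1) (hc 2) (hd 2)) (nnA hBAS hu hD (hc 2) (hd 2))).2
      ⟨fun v hv => by
        apply hA v _ _ hv
        right
        refine ⟨0, ?_⟩
        rw [T0]
        constructor
        · have e1 : df e 1 * df e 2 * (D0 * df e 1 * (D0 * df e 2)) = (D0 * df e 1 * df e 2) ^ 2 := by ring
          show Lpw 2 v (df e 1 * df e 2 * (D0 * df e 1 * (D0 * df e 2)))
          rw [e1]
          exact sq v _ (mul_ne_zero (mul_ne_zero hD0 (hd 1)) (hd 2))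
        · have e1 : D0 * df e 2 * (D0 * df e 2) = (D0 * df e 2) ^ 2 := by ring
          show Lpw 2 v (D0 * df e 2 * (D0 * df e 2))
          rw [e1]
          exact sq v _ (mul_ne_zero hD0 (hd 2)), fun φ => by
        have := hRm φ _ _ ((D0⁻¹) ^ 2) 1 (hR0 φ) (sq_pos' φ hD0) (by rw [map_one]; exact one_pos)
        have e1 : D0 * df e 1 * (D0 * df e 2) * (D0⁻¹) ^ 2 = df e 1 * df e 2 := by field_simp
        rwa [e1, mul_one] at this⟩
    convert h1 using 3
    · rw [opS_single]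
      apply Prod.ext
      · simp only [Pi.add_apply]
        ring
      · simp only [Pi.add_apply]
        ring
    · apply Prod.ext
      · simp
      · simp
  · have h1 := (hM (D0 * -(df e 2)) (df e 0 * -(df e 2)) (ψ, w + (c 2 + Pi.single t₀ (1 : ZMod 2)))
      (0, c 0 + (c 2 + Pi.single t₀ (1 : ZMod 2))) (mul_ne_zero hD0 (hdn 2))
      (mul_ne_zero (hd 0) (hdn 2)) (nnA hBAS hu hD (hcn 2) (hdn 2)) (nnB hBAS hu (hc 0) (hd 0) (hcn 2) (hdn 2))).2
      ⟨fun v hv => by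
        apply hA v _ _ hv
        right
        refine ⟨1, ?_⟩
        rw [T1]
        constructor
        · have e1 : D0 * -(df e 2) * (-(D0 * df e 2)) = (D0 * df e 2) ^ 2 := by ring
          show Lpw 2 v (D0 * -(df e 2) * (-(D0 * df e 2)))
          rw [e1]
          exact sq v _ (mul_ne_zero hD0 (hd 2))
        · have e1 : df e 0 * -(df e 2) * (-(D0 * df e 0 * (D0 * df e 2))) = (D0 * df e 0 * df e 2) ^ 2 := by ring
          show Lpw 2 v (df e 0 * -(df e 2) * (-(D0 * df e 0 * (D0 * df e 2))))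
          rw [e1]
          exact sq v _ (mul_ne_zero (mul_ne_zero hD0 (hd 0)) (hd 2)), fun φ => by
        have := hRm φ _ _ 1 ((D0⁻¹) ^ 2) (hR1 φ) (by rw [map_one]; exact one_pos) (sq_pos' φ hD0)
        have e1 : -(D0 * df e 0 * (D0 * df e 2)) * (D0⁻¹) ^ 2 = df e 0 * -(df e 2) := by field_simp
        have e2 : -(D0 * df e 2) * 1 = D0 * -(df e 2) := by ring
        rwa [e1, e2] at this⟩
    convert h1 using 3
    · rw [opS_single]
      apply Prod.ext
      · simp only [Pi.add_apply]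
        ring
      · simp only [Pi.add_apply]
        ring
    · apply Prod.ext
      · simp
      · simp
  · have h1 := (hM (D0 * -(df e 1)) (D0 * -(df e 0)) (ψ, w + (c 1 + Pi.single t₀ (1 : ZMod 2)))
      (ψ, w + (c 0 + Pi.single t₀ (1 : ZMod 2))) (mul_ne_zero hD0 (hdn 1))
      (mul_ne_zero hD0 (hdn 0)) (nnA hBAS hu hD (hcn 1) (hdn 1)) (nnA hBAS hu hD (hcn 0) (hdn 0))).2
      ⟨fun v hv => by
        apply hA v _ _ hv
        right
        refine ⟨2, ?_⟩
        rw [T2]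
        constructor
        · have e1 : D0 * -(df e 1) * (-(D0 * df e 1)) = (D0 * df e 1) ^ 2 := by ring
          show Lpw 2 v (D0 * -(df e 1) * (-(D0 * df e 1)))
          rw [e1]
          exact sq v _ (mul_ne_zero hD0 (hd 1))
        · have e1 : D0 * -(df e 0) * (-(D0 * df e 0)) = (D0 * df e 0) ^ 2 := by ring
          show Lpw 2 v (D0 * -(df e 0) * (-(D0 * df e 0)))
          rw [e1]
          exact sq v _ (mul_ne_zero hD0 (hd 0)), fun φ => by
        have := hR2 φ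
        have e1 : -(D0 * df e 1) = D0 * -(df e 1) := by ring
        have e2 : -(D0 * df e 0) = D0 * -(df e 0) := by ring
        rwa [e1, e2] at this⟩
    have h11 : (1 : ZMod 2) + 1 = 0 := by decide
    convert h1 using 3
    · rw [opS_single]
      apply Prod.ext
      · simp only [Pi.add_apply, h11]
        ring
      · simp only [Pi.add_apply, h11]
        ring
    · apply Prod.ext
      · simp
      · simp

end Pool.Agent.Q259.FG
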